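import Mathlib
import Pool.Agent.Helper558_CP.Assemble

/-!
# Complete intersections in products of projective spaces with nef tangent bundle

Let `X` be a smooth complete intersection in the product of the projective spaces of dimensions
`n i`, defined by multihomogeneous equations `F j` of multidegrees `d j`, each of which involves at
least two of the factors, with `∑ j, d j i ≤ n i` for every `i`; by adjunction the last condition
says that the anticanonical bundle of `X` is the restriction of an ample line bundle of the product
given by the adjunction formula, so that `X` is a Fano manifold.  If the tangent bundle of `X` is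
nef, then `X` has a cellular decomposition.
-/

open MvPolynomial Pool.Agent.Helper558_CP

namespace Pool.Agent.Results.MP_66e591_ag.MixedCompleteIntersections

theorem result (k r : ℕ) (n : Fin k → ℕ)
    (F : Fin r → MvPolynomial (Σ i : Fin k, Fin (n i + 1)) ℂ) (d : Fin r → Fin k → ℕ)
    (hF : ∀ j, MH Sigma.fst (F j) (d j))
    (hmixed : ∀ j, ∃ i l, i ≠ l ∧ d j i ≠ 0 ∧ d j l ≠ 0)
    (hFano : ∀ i, ∑ j, d j i ≤ n i)
    (hsmooth : SmoothCI Sigma.fst F)
    (hnef : NefTangent Sigma.fst F) :
    HasCellularDecomposition Sigma.fst (zeros Sigma.fst F) := by
  have D : Datum Sigma.fst F d n := by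
    refine ⟨card_group n, hF, hFano, hmixed, ?_⟩
    intro i z hz c hc hrel
    refine rows_indep Sigma.fst F d hF hsmooth hnef i ?_ z hz c hc hrel
    rw [card_group]
    exact Nat.lt_succ_of_le (hFano i)
  choose s t hst hs ht using hmixed
  exact D.decomposition s t hst hs ht

end Pool.Agent.Results.MP_66e591_ag.MixedCompleteIntersections
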